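import Pool.Agent.X268.KC.Main
import Pool.Agent.X268.EV.Final

/-!
# The monodromy-weight conjecture from the surjectivity of the evaluation
-/

set_option autoImplicit false
set_option linter.unusedSectionVars false

namespace Pool.Agent.X268.KC

open Module Pool.Agent.X268.WM Pool.Agent.X268.EV
open scoped TensorProduct

universe u

variable {Ω : Type} [Field Ω] [CharZero Ω] {q : ℕ}

theorem N2_functional {W W' : FN.{u} Ω q} {j j' : ℕ} {φ : Dual Ω W.V} {ψ : Dual Ω W'.V}
    (hφ : ∀ y, φ ((W.N ^ (j + 1)) y) = 0) (hψ : ∀ y, ψ ((W'.N ^ (j' + 1)) y) = 0) {t : ℕ}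
    (ht : j + j' < t) (z : W.V ⊗[Ω] W'.V) :
    (LinearMap.mul' Ω Ω ∘ₗ TensorProduct.map φ ψ) ((N2 W W' ^ t) z) = 0 := by
  induction z using TensorProduct.induction_on with
  | zero => rw [map_zero, map_zero]
  | add z z' h1 h2 => rw [map_add, map_add, h1, h2, add_zero]
  | tmul u v =>
    rw [N2_pow, map_sum]
    refine Finset.sum_eq_zero fun p hp => ?_
    rw [Finset.HasAntidiagonal.mem_antidiagonal] at hp
    rw [map_nsmul, LinearMap.comp_apply, TensorProduct.map_tmul, LinearMap.mul'_apply]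
    rcases Nat.lt_or_ge j p.1 with h | h
    · obtain ⟨c, hc⟩ := Nat.exists_eq_add_of_lt h
      rw [hc, show j + c + 1 = (j + 1) + c by omega, pow_add, Module.End.mul_apply, hφ, zero_mul,
        smul_zero]
    · obtain ⟨c, hc⟩ := Nat.exists_eq_add_of_lt (show j' < p.2 by omega)
      rw [hc, show j' + c + 1 = (j' + 1) + c by omega, pow_add, Module.End.mul_apply, hψ, mul_zero,
        smul_zero]

/-- The depth of a tensor. -/
theorem tensor_depth {W W' : FN.{u} Ω q} {j j' : ℕ} {x : W.V} {y : W'.V}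
    (hx : x ∉ LinearMap.range (W.N ^ (j + 1))) (hy : y ∉ LinearMap.range (W'.N ^ (j' + 1))) {t : ℕ}
    (ht : j + j' < t) : x ⊗ₜ[Ω] y ∉ LinearMap.range (N2 W W' ^ t) := by
  rintro ⟨z, hz⟩
  obtain ⟨φ, hφx, hφ⟩ := exists_functional hx
  obtain ⟨ψ, hψy, hψ⟩ := exists_functional hy
  have h1 := N2_functional (W := W) (W' := W') (fun w => hφ _ ⟨w, rfl⟩) (fun w => hψ _ ⟨w, rfl⟩) ht z
  rw [hz, LinearMap.comp_apply, TensorProduct.map_tmul, LinearMap.mul'_apply] at h1
  exact mul_ne_zero hφx hψy h1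

/-- The operator `g`. -/
theorem exists_g {W W' : FN.{u} Ω q} {n : ℕ} (hF : Function.Surjective W.F) (hB : IsDual W W' n)
    (hq : 0 < q) (hE : EvaluationSurjective q (F2 W W') (N2 W W') (2 * n)) :
    ∃ f g : End Ω W.V, W.N * f = f * W.N + g ∧ g * W.N = W.N * g - W.N ∧ g * W.F = W.F * g := by
  have hqΩ : (q : Ω) ≠ 0 := by exact_mod_cast hq.ne'
  obtain ⟨B, hB0, hB1, hBF, hBN⟩ := hB
  have hinj1 : Function.Injective B := by
    rw [injective_iff_map_eq_zero]
    exact fun x hx => hB0 x fun y => by rw [hx, LinearMap.zero_apply]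
  have hinj2 : Function.Injective B.flip := by
    rw [injective_iff_map_eq_zero]
    exact fun y hy => hB1 y fun x => by
      have := LinearMap.congr_fun hy x
      rwa [LinearMap.flip_apply] at this
  have hd1 := LinearMap.finrank_le_finrank_of_injective hinj1
  have hd2 := LinearMap.finrank_le_finrank_of_injective hinj2
  rw [Subspace.dual_finrank_eq] at hd1 hd2
  have hbij : Function.Bijective B.flip :=
    ⟨hinj2, (LinearMap.injective_iff_surjective_of_finrank_eq_finrank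
      (by rw [Subspace.dual_finrank_eq]; exact le_antisymm hd2 hd1)).1 hinj2⟩
  let e : W'.V ≃ₗ[Ω] Dual Ω W.V := LinearEquiv.ofBijective B.flip hbij
  let Θ : W.V ⊗[Ω] W'.V ≃ₗ[Ω] End Ω W.V :=
    (TensorProduct.comm Ω W.V W'.V).trans ((TensorProduct.congr e (LinearEquiv.refl Ω W.V)).trans
      (dualTensorHomEquiv Ω W.V W.V))
  have hΘ : ∀ x y w, Θ (x ⊗ₜ[Ω] y) w = B w y • x := by
    intro x y w
    rfl
  have hΘF : ∀ z w, Θ (F2 W W' z) (W.F w) = (q : Ω) ^ n • W.F (Θ z w) := by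
    intro z w
    induction z using TensorProduct.induction_on with
    | zero => simp
    | add a b ha hb => rw [map_add, map_add, LinearMap.add_apply, ha, hb, map_add,
        LinearMap.add_apply, map_add, smul_add]
    | tmul x y =>
      unfold F2
      rw [TensorProduct.map_tmul, hΘ, hΘ, hBF, map_smul, smul_smul]
  have hΘN : ∀ z w, Θ (N2 W W' z) w = W.N (Θ z w) - Θ z (W.N w) := by
    intro z w
    induction z using TensorProduct.induction_on with
    | zero => simp
    | add a b ha hb =>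
      rw [map_add, map_add, LinearMap.add_apply, ha, hb, map_add, LinearMap.add_apply, map_add,
        LinearMap.add_apply]
      abel
    | tmul x y =>
      unfold N2
      rw [LinearMap.add_apply, TensorProduct.map_tmul, TensorProduct.map_tmul, map_add,
        LinearMap.add_apply, hΘ, hΘ, hΘ, hΘ, LinearMap.id_apply, LinearMap.id_apply, hBN, map_smul,
        neg_smul, sub_neg_eq_add]
  obtain ⟨ν, hν⟩ := Θ.surjective W.N
  have hνF : F2 W W' ν = (q : Ω) ^ ((n : ℤ) - 1) • ν := by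
    apply Θ.injective
    refine LinearMap.ext fun w => ?_
    obtain ⟨w, rfl⟩ := hF w
    rw [hΘF, map_smul, LinearMap.smul_apply, hν, W.comm, smul_smul, zpow_sub_one₀ hqΩ, zpow_natCast,
      mul_assoc, inv_mul_cancel₀ hqΩ, mul_one]
  have hνN : N2 W W' ν = 0 := by
    apply Θ.injective
    refine LinearMap.ext fun w => ?_
    rw [hΘN, hν, sub_self, map_zero, LinearMap.zero_apply]
  obtain ⟨u, huF, huN⟩ := exists_of_evaluation hE (r := (n : ℤ) - 1) (t := 2) (by push_cast; ring)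
    hνF hνN
  have hfF : ∀ w, Θ u (W.F w) = (q : Ω)⁻¹ • W.F (Θ u w) := by
    intro w
    have h1 := hΘF u w
    rw [huF, map_smul, LinearMap.smul_apply] at h1
    have h2 : (q : Ω) ^ ((n : ℤ) - 1 + (2 : ℕ)) = (q : Ω) ^ n * q := by
      rw [show (n : ℤ) - 1 + (2 : ℕ) = ((n + 1 : ℕ) : ℤ) by push_cast; ring, zpow_natCast, pow_succ]
    rw [h2, mul_smul] at h1
    have h3 := smul_right_injective W.V (pow_ne_zero n hqΩ) h1
    rw [← h3, smul_smul, inv_mul_cancel₀ hqΩ, one_smul]
  have hfN : ∀ w, W.N (W.N (Θ u w)) - W.N (Θ u (W.N w)) - (W.N (Θ u (W.N w)) - Θ u (W.N (W.N w))) =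
      W.N w := by
    intro w
    have h1 : Θ ((N2 W W' ^ 2) u) w = W.N w := by rw [huN, hν]
    rw [pow_two, Module.End.mul_apply, hΘN, hΘN, hΘN, map_sub] at h1
    exact h1
  refine ⟨Θ u, W.N * Θ u - Θ u * W.N, by abel, ?_, ?_⟩
  · refine LinearMap.ext fun w => ?_
    simp only [Module.End.mul_apply, LinearMap.sub_apply, map_sub]
    have h1 := hfN w
    refine sub_eq_zero.1 ?_
    rw [← neg_eq_zero]
    refine Eq.trans ?_ (sub_eq_zero.2 h1)
    abel
  · refine LinearMap.ext fun w => ?_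
    simp only [Module.End.mul_apply, LinearMap.sub_apply, map_sub]
    rw [hfF, map_smul, W.comm, smul_smul, inv_mul_cancel₀ hqΩ, one_smul, W.comm, map_smul, hfF,
      smul_smul, mul_inv_cancel₀ hqΩ, one_smul]

/-- From eigenvectors to generalized eigenvectors. -/
theorem gen_of_eigen [IsAlgClosed Ω] {W : FN.{u} Ω q} {f g : End Ω W.V}
    (hf : W.N * f = f * W.N + g) (hg : g * W.N = W.N * g - W.N) (hgF : g * W.F = W.F * g) {b : Ω}
    {d : ℕ} (h : ∀ x : W.V, W.F x = b • x → W.N x = 0 → x ∈ LinearMap.range (W.N ^ d)) :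
    ∀ x ∈ W.F.maxGenEigenspace b, W.N x = 0 → x ∈ LinearMap.range (W.N ^ d) := by
  intro x hx hxN
  have hcomm : Commute W.F g := hgF.symm
  have hK := le_range_of_eigenvectors (Ω := Ω) W.nilpotent hf hg hgF
    (K := W.F.maxGenEigenspace b ⊓ LinearMap.ker W.N) (s := d)
    (fun x hx => LinearMap.mem_ker.1 hx.2)
    (fun x hx => ⟨Module.End.mapsTo_maxGenEigenspace_of_comm (Commute.refl _) b hx.1,
      LinearMap.mem_ker.2 (by rw [W.comm, LinearMap.mem_ker.1 hx.2, map_zero, smul_zero])⟩)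
    (fun x hx => ⟨Module.End.mapsTo_maxGenEigenspace_of_comm hcomm b hx.1,
      LinearMap.mem_ker.2 (by
        have h1 := LinearMap.congr_fun hg x
        simp only [Module.End.mul_apply, LinearMap.sub_apply, LinearMap.mem_ker.1 hx.2, map_zero,
          sub_zero] at h1
        exact h1.symm)⟩)
    (fun x hx c hc => by
      by_cases hx0 : x = 0
      · rw [hx0]
        exact Submodule.zero_mem _
      · have hcb : c = b := by
          by_contra hne
          have h1 : x ∈ W.F.maxGenEigenspace c :=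
            mem_gen.2 ⟨1, by simp [hc]⟩
          have h2 := W.F.independent_maxGenEigenspace b
          exact hx0 (Submodule.disjoint_def.1 h2 x hx.1
            (Submodule.mem_iSup_of_mem c (Submodule.mem_iSup_of_mem hne h1)))
        exact h x (by rw [hc, hcb]) (LinearMap.mem_ker.1 hx.2))
  exact hK ⟨hx, LinearMap.mem_ker.2 hxN⟩

/-- **The monodromy-weight conjecture from the surjectivity of the evaluation.** -/
theorem isPure_of_evaluation [IsAlgClosed Ω] (𝒞 : LogCohomology.{u} Ω q) (hq : 1 < q)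
    (hB : ∀ (n : ℕ) (X : 𝒞.Var n) (m : ℕ), m ≤ 2 * n → IsDual (𝒞.H X m) (𝒞.H X (2 * n - m)) n)
    (hE : ∀ (n : ℕ) (X : 𝒞.Var n) (m : ℕ) (n' : ℕ) (X' : 𝒞.Var n') (m' : ℕ), m ≤ 2 * n →
      m' ≤ 2 * n' →
      EvaluationSurjective q (F2 (𝒞.H X m) (𝒞.H X' m')) (N2 (𝒞.H X m) (𝒞.H X' m')) (m + m')) :
    ∀ (n : ℕ) (X : 𝒞.Var n) (m : ℕ), m ≤ 2 * n → (𝒞.H X m).IsPure m := by
  have hq0 : 0 < q := by omega
  have hqΩ : (q : Ω) ≠ 0 := by exact_mod_cast hq0.ne'
  have hg : ∀ (n : ℕ) (X : 𝒞.Var n) (m : ℕ), m ≤ 2 * n → ∃ f g : End Ω (𝒞.H X m).V,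
      (𝒞.H X m).N * f = f * (𝒞.H X m).N + g ∧ g * (𝒞.H X m).N = (𝒞.H X m).N * g - (𝒞.H X m).N ∧
      g * (𝒞.H X m).F = (𝒞.H X m).F * g := by
    intro n X m hm
    refine exists_g (surjective_F hq (𝒞.mixed X m)) (hB n X m hm) hq0 ?_
    have h1 := hE n X m n X (2 * n - m) hm (by omega)
    rwa [show m + (2 * n - m) = 2 * n by omega] at h1
  intro n
  induction n using Nat.strong_induction_on with
  | _ n ih =>
    intro X
    have hker : ∀ m ≤ 2 * n, ∀ (s : ℕ) (a : Ω), IsWeil q ((m : ℤ) - s) a →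
        ∀ x ∈ (𝒞.H X m).F.maxGenEigenspace a, (𝒞.H X m).N x = 0 →
        x ∈ LinearMap.range ((𝒞.H X m).N ^ s) := by
      intro m hm s a ha
      obtain ⟨f, g, h1, h2, h3⟩ := hg n X m hm
      refine gen_of_eigen h1 h2 h3 fun z hFz hzN => ?_
      by_contra hzs
      have ha0 : a ≠ 0 := ha.ne_zero hq0
      have hs : s ≠ 0 := by
        rintro rfl
        exact hzs ⟨z, by simp⟩
      obtain ⟨s, rfl⟩ := Nat.exists_eq_succ_of_ne_zero hs
      -- depths in the dual family
      have hdepth : ∀ (n' : ℕ) (Y : 𝒞.Var n') (m' : ℕ), m' ≤ 2 * n' → ∀ (a' : Ω) (s' : ℕ) (r : ℤ),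
          a * a' = (q : Ω) ^ r → IsWeil q ((m' : ℤ) - s') a' →
          ∀ y ∈ (𝒞.H Y m').F.maxGenEigenspace a', (𝒞.H Y m').N y = 0 →
          y ∈ LinearMap.range ((𝒞.H Y m').N ^ (s' + 1)) := by
        intro n' Y m' hm' a' s' r hr hw
        obtain ⟨f, g, h1, h2, h3⟩ := hg n' Y m' hm'
        refine gen_of_eigen h1 h2 h3 fun y hFy hyN => ?_
        by_contra hyd
        have h4 : F2 (𝒞.H X m) (𝒞.H Y m') (z ⊗ₜ[Ω] y) = (q : Ω) ^ r • (z ⊗ₜ[Ω] y) := by
          unfold F2
          rw [TensorProduct.map_tmul, hFz, hFy, TensorProduct.smul_tmul_smul, hr]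
        have h5 : N2 (𝒞.H X m) (𝒞.H Y m') (z ⊗ₜ[Ω] y) = 0 := by
          unfold N2
          rw [LinearMap.add_apply, TensorProduct.map_tmul, TensorProduct.map_tmul, hzN, hyN,
            TensorProduct.zero_tmul, TensorProduct.tmul_zero, add_zero]
        have h6 := weight_of_mul hq ha hw hr
        obtain ⟨u, -, hu⟩ := exists_of_evaluation (hE n X m n' Y m' hm hm') (r := r)
          (t := s + 1 + s') (by rw [← h6]; push_cast; ring) h4 h5
        exact tensor_depth (t := s + 1 + s') hzs hyd (by omega) ⟨u, hu⟩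
      have hmult : ∀ (n' : ℕ) (Y : 𝒞.Var n') (m' : ℕ), m' ≤ 2 * n' → ∀ (a' : Ω) (s' : ℕ) (r : ℤ),
          a * a' = (q : Ω) ^ r → IsWeil q ((m' : ℤ) - s') a' →
          (𝒞.H Y m').mult a' ≤ (𝒞.H Y m').mult (a' * (q : Ω) ^ (s' + 1)) := by
        intro n' Y m' hm' a' s' r hr hw
        refine mult_le_of_surj hq0 fun y hy => range_gen hq0 hy ?_
        have h4 := mem_of_ker (W := 𝒞.H Y m') (b := a') (s := s' + 1) hq0 (fun l x hx hxN => ?_) 0
          (y := y) (by simpa using hy)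
        · simpa using h4
        · have h5 : IsWeil q ((m' : ℤ) - (s' + 2 * l : ℕ)) (a' / (q : Ω) ^ l) := by
            have h6 := hw.scale hq0 (-(l : ℤ))
            rw [zpow_neg, zpow_natCast, ← div_eq_mul_inv] at h6
            rwa [show (m' : ℤ) - s' + 2 * (-(l : ℤ)) = (m' : ℤ) - (s' + 2 * l : ℕ) by
              push_cast; ring] at h6
          have h6 := hdepth n' Y m' hm' _ _ (r - l) (by
            rw [mul_div_assoc', hr, zpow_sub₀ hqΩ, zpow_natCast]) h5 x hx hxN
          rwa [show s' + 2 * l + 1 = s' + 1 + 2 * l by ring] at h6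
      have hvan := vanish 𝒞 hq (n := n) (P := fun c => ∃ j : ℤ, c = a * (q : Ω) ^ j)
        (fun n' hn' Y m hm => ih n' hn' Y m hm)
        (by
          rintro c ⟨j, rfl⟩ i
          exact ⟨j + i, by rw [mul_assoc, zpow_add₀ hqΩ]⟩)
        (by
          rintro n' Y m' hm' c k ⟨j, hc⟩ hw
          have hc0 : c ≠ 0 := hw.ne_zero hq0
          have h4 : IsWeil q (((2 * n' - m' : ℕ) : ℤ) - k) ((q : Ω) ^ n' / c) := by
            have h5 := (hw.conj hq0).scale hq0 ((n' : ℤ) - m' - k)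
            have h6 : (m' : ℤ) + k + 2 * ((n' : ℤ) - m' - k) = ((2 * n' - m' : ℕ) : ℤ) - k := by
              rw [Nat.cast_sub hm']
              push_cast
              ring
            have h7 : (q : Ω) ^ ((m' : ℤ) + k) / c * (q : Ω) ^ ((n' : ℤ) - m' - k) =
                (q : Ω) ^ n' / c := by
              rw [div_mul_eq_mul_div, ← zpow_add₀ hqΩ,
                show (m' : ℤ) + k + ((n' : ℤ) - m' - k) = (n' : ℤ) by ring, zpow_natCast]
            rwa [h6, h7] at h5
          have h5 := hmult n' Y (2 * n' - m') (by omega) _ k (n' - j) (by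
            rw [hc, zpow_sub₀ hqΩ, zpow_natCast]
            have hz : (q : Ω) ^ j ≠ 0 := zpow_ne_zero _ hqΩ
            field_simp) h4
          rw [𝒞.duality Y m' hm' c hc0,
            𝒞.duality Y m' hm' _ (div_ne_zero hc0 (pow_ne_zero _ hqΩ))]
          refine h5.trans (le_of_eq ?_)
          congr 1
          field_simp)
        X hm (a := a) ⟨0, by simp⟩
      have hz0 : z ≠ 0 := by
        rintro rfl
        exact hzs (Submodule.zero_mem _)
      exact (mult_pos (mem_gen.2 ⟨1, by simp [hFz]⟩) hz0).ne' hvan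
    have hsurj : ∀ m ≤ 2 * n, ∀ (k : ℕ) (a : Ω), IsWeil q (m + k) a →
        ∀ u ∈ (𝒞.H X m).F.maxGenEigenspace (a / (q : Ω) ^ k),
        ∃ v ∈ (𝒞.H X m).F.maxGenEigenspace a, ((𝒞.H X m).N ^ k) v = u := by
      intro m hm k a ha u hu
      have h1 := mem_of_ker (W := 𝒞.H X m) (b := a / (q : Ω) ^ k) (s := k) hq0
        (fun l x hx hxN => ?_) 0 (y := u) (by simpa using hu)
      · obtain ⟨w, hw1, hw2⟩ := range_gen hq0 hu (by simpa using h1)
        rw [div_mul_cancel₀ _ (pow_ne_zero _ hqΩ)] at hw1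
        exact ⟨w, hw1, hw2⟩
      · refine hker m hm (k + 2 * l) _ ?_ x hx hxN
        have h2 := ha.scale hq0 (-(k : ℤ) - l)
        have h3 : (m : ℤ) + k + 2 * (-(k : ℤ) - l) = (m : ℤ) - (k + 2 * l : ℕ) := by
          push_cast; ring
        have h4 : a * (q : Ω) ^ (-(k : ℤ) - l) = a / (q : Ω) ^ k / (q : Ω) ^ l := by
          rw [sub_eq_add_neg, zpow_add₀ hqΩ, zpow_neg, zpow_neg, zpow_natCast, zpow_natCast]
          field_simp
        rwa [h3, h4] at h2
    have hle : ∀ m ≤ 2 * n, ∀ (k : ℕ) (a : Ω), IsWeil q (m + k) a →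
        (𝒞.H X m).mult (a / (q : Ω) ^ k) ≤ (𝒞.H X m).mult a := by
      intro m hm k a ha
      have h1 := mult_le_of_surj (W := 𝒞.H X m) (b := a / (q : Ω) ^ k) (k := k) hq0 (fun u hu => by
        rw [div_mul_cancel₀ _ (pow_ne_zero _ hqΩ)]
        exact hsurj m hm k a ha u hu)
      rwa [div_mul_cancel₀ _ (pow_ne_zero _ hqΩ)] at h1
    intro m hm
    refine ⟨𝒞.mixed X m, fun k a ha => ?_⟩
    have ha0 := ha.ne_zero hq0
    have h1 : IsWeil q (((2 * n - m : ℕ) : ℤ) + k) ((q : Ω) ^ (n + k) / a) := by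
      have h2 := (ha.conj hq0).scale hq0 ((n : ℤ) - m)
      have h3 : (m : ℤ) + k + 2 * ((n : ℤ) - m) = ((2 * n - m : ℕ) : ℤ) + k := by
        rw [Nat.cast_sub hm]
        push_cast
        ring
      have h4 : (q : Ω) ^ ((m : ℤ) + k) / a * (q : Ω) ^ ((n : ℤ) - m) = (q : Ω) ^ (n + k) / a := by
        rw [div_mul_eq_mul_div, ← zpow_add₀ hqΩ, show (m : ℤ) + k + ((n : ℤ) - m) = ((n + k : ℕ) : ℤ) by
          push_cast; ring, zpow_natCast]
      rwa [h3, h4] at h2
    have h5 := hle (2 * n - m) (by omega) k _ h1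
    have hd : (𝒞.H X m).mult a = (𝒞.H X m).mult (a / (q : Ω) ^ k) := by
      refine le_antisymm ?_ (hle m hm k a ha)
      rw [𝒞.duality X m hm a ha0, 𝒞.duality X m hm _ (div_ne_zero ha0 (pow_ne_zero _ hqΩ))]
      refine (le_of_eq ?_).trans (h5.trans (le_of_eq ?_))
      · congr 1
        rw [pow_add]
        field_simp
      · congr 1
        rw [pow_add]
        field_simp
    refine ⟨?_, hsurj m hm k a ha⟩
    let f : (𝒞.H X m).F.maxGenEigenspace a →ₗ[Ω] (𝒞.H X m).F.maxGenEigenspace (a / (q : Ω) ^ k) :=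
      ((𝒞.H X m).N ^ k).restrict fun v hv => N_pow_mem hq0 k hv
    have hs : Function.Surjective f := fun u => by
      obtain ⟨v, hv, he⟩ := hsurj m hm k a ha u u.2
      exact ⟨⟨v, hv⟩, Subtype.ext he⟩
    have hi : Function.Injective f :=
      (LinearMap.injective_iff_surjective_of_finrank_eq_finrank hd).2 hs
    intro v hv h0
    exact congrArg Subtype.val ((injective_iff_map_eq_zero f).1 hi ⟨v, hv⟩ (Subtype.ext h0))

end Pool.Agent.X268.KC
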