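import Pool.Agent.X268.WM.Stm

/-!
# Log `ℓ`-adic cohomology of projective log smooth schemes over a log point
-/

set_option autoImplicit false

namespace Pool.Agent.X268.KC

open Module Pool.Agent.X268.WM
open scoped TensorProduct

universe u

/-- The log `ℓ`-adic cohomology of the projective SNCL schemes over the log point of a finite field with `q`
elements, with coefficients in an algebraic closure `Ω` of the field of `ℓ`-adic numbers: `Var n` are the
schemes of dimension `n`, and `H X m` is the cohomology of degree `m` of `X`. -/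
structure LogCohomology (Ω : Type) [Field Ω] [CharZero Ω] (q : ℕ) where
  Var : ℕ → Type
  H : {n : ℕ} → Var n → ℕ → FN.{u} Ω q
  /-- the eigenvalues of Frobenius are Weil numbers -/
  mixed : ∀ {n : ℕ} (X : Var n) (m : ℕ), (H X m).IsMixed
  /-- Poincaré duality: multiplicities of the eigenvalues of Frobenius -/
  duality : ∀ {n : ℕ} (X : Var n) (m : ℕ), m ≤ 2 * n → ∀ a : Ω, a ≠ 0 →
    (H X m).mult a = (H X (2 * n - m)).mult ((q : Ω) ^ n / a)
  /-- the alternating product of the characteristic polynomials of Frobenius is rational: conjugate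
  numbers have the same multiplicities -/
  euler : ∀ {n : ℕ} (X : Var n) (a b : Ω), IsAlgebraic ℚ a → minpoly ℚ a = minpoly ℚ b →
    altMult (H X) n a = altMult (H X) n b
  /-- smooth hyperplane sections and the weak Lefschetz theorem -/
  hyperplane : ∀ {n : ℕ} (X : Var (n + 1)), ∃ Y : Var n, ∀ m ≤ n, (H X m).Embeds (H Y m)

variable {Ω : Type} [Field Ω] {q : ℕ}

/-- The Frobenius operator on `W ⊗ W'`. -/
noncomputable def F2 (W W' : FN.{u} Ω q) : End Ω (W.V ⊗[Ω] W'.V) := TensorProduct.map W.F W'.F

/-- The monodromy operator on `W ⊗ W'`. -/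
noncomputable def N2 (W W' : FN.{u} Ω q) : End Ω (W.V ⊗[Ω] W'.V) :=
  TensorProduct.map W.N LinearMap.id + TensorProduct.map LinearMap.id W'.N

/-- The Tate part of the monodromy-weight conjecture for a space `P` of degree `m`: for `k > 0` no nonzero
eigenvector of Frobenius whose eigenvalue is a power `q ^ r` of weight `2 r = m + k` is killed by `N ^ k`. -/
def TatePart {P : Type u} [AddCommGroup P] [Module Ω P] (q : ℕ) (F N : End Ω P) (m : ℕ) : Prop :=
  ∀ (r : ℤ) (k : ℕ), 0 < k → 2 * r = m + k → ∀ z : P, F z = (q : Ω) ^ r • z → (N ^ k) z = 0 → z = 0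

/-- Poincaré duality between the cohomology `W` and `W'` of complementary degrees of `X`, `n = dim X`. -/
def IsDual (W W' : FN.{u} Ω q) (n : ℕ) : Prop :=
  ∃ B : W.V →ₗ[Ω] W'.V →ₗ[Ω] Ω, (∀ x, (∀ y, B x y = 0) → x = 0) ∧
    (∀ y, (∀ x, B x y = 0) → y = 0) ∧ (∀ x y, B (W.F x) (W'.F y) = (q : Ω) ^ n * B x y) ∧
    ∀ x y, B (W.N x) y = -B x (W'.N y)

end Pool.Agent.X268.KC
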