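import Pool.Agent.X268.WM.Main
import Pool.Agent.X268.KC.Stm

/-!
# The monodromy-weight conjecture from its Tate part
-/

set_option autoImplicit false
set_option linter.unusedSectionVars false

namespace Pool.Agent.X268.KC

open Module Pool.Agent.X268.WM
open scoped TensorProduct

universe u

variable {Ω : Type} [Field Ω] [CharZero Ω] {q : ℕ}

/-- The weight is unique. -/
theorem weight_unique (hq : 1 < q) {w w' : ℤ} {a : Ω} (h : IsWeil q w a) (h' : IsWeil q w' a) :
    w = w' := by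
  have hd : (minpoly ℚ a).degree ≠ 0 := (minpoly.degree_pos h.1.isIntegral).ne'
  obtain ⟨z, hz⟩ := IsAlgClosed.exists_aeval_eq_zero ℂ (minpoly ℚ a) hd
  have h1 := (h.2 z hz).symm.trans (h'.2 z hz)
  have hq1 : (1 : ℝ) < q := by exact_mod_cast hq
  exact zpow_right_injective₀ (by positivity) hq1.ne' h1

/-- The weight of an eigenvalue that is complementary to another one. -/
theorem weight_of_mul (hq : 1 < q) {w w' r : ℤ} {a a' : Ω} (h : IsWeil q w a) (h' : IsWeil q w' a')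
    (har : a * a' = (q : Ω) ^ r) : w + w' = 2 * r := by
  have hq0 : 0 < q := by omega
  have hqΩ : (q : Ω) ≠ 0 := by exact_mod_cast hq0.ne'
  have h1 := (h.conj hq0).scale hq0 (r - w)
  have h2 : (q : Ω) ^ w / a * (q : Ω) ^ (r - w) = a' := by
    rw [zpow_sub₀ hqΩ, ← har]
    have ha := h.ne_zero hq0
    have hz : (q : Ω) ^ w ≠ 0 := zpow_ne_zero _ hqΩ
    field_simp
  rw [h2] at h1
  have h3 := weight_unique hq h1 h'
  omega

theorem mult_eq_zero {W : FN.{u} Ω q} (hmix : W.IsMixed) {a : Ω} (h : ∀ w, ¬ IsWeil q w a) :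
    W.mult a = 0 := by
  by_contra hne
  obtain ⟨x, hx⟩ := Module.finrank_pos_iff_exists_ne_zero.1 (Nat.pos_of_ne_zero hne)
  obtain ⟨u, hu, hFu, -⟩ := exists_eigenvector (k := W.nilpotent.choose) x.2
    (fun h => hx (Subtype.ext h)) (by rw [W.nilpotent.choose_spec]; rfl)
  obtain ⟨w, hw⟩ := hmix a (Module.End.hasEigenvalue_of_hasEigenvector
    (Module.End.hasEigenvector_iff.2 ⟨Module.End.mem_eigenspace_iff.2 hFu, hu⟩))
  exact h w hw

theorem mult_le_of_embeds {W W' : FN.{u} Ω q} (h : W.Embeds W') (a : Ω) : W.mult a ≤ W'.mult a := by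
  obtain ⟨f, hf, hF, -⟩ := h
  have h1 : ∀ v ∈ W.F.maxGenEigenspace a, f v ∈ W'.F.maxGenEigenspace a := by
    intro v hv
    have := map_gen (W := W) (W' := W') (f := f) (c := 1) (fun v => by rw [one_smul, hF]) hv
    rwa [one_mul] at this
  refine LinearMap.finrank_le_finrank_of_injective (f := f.restrict h1) ?_
  intro x y hxy
  exact Subtype.ext (hf (congrArg Subtype.val hxy))

/-- Symmetric and decreasing multiplicities vanish. -/
theorem vanish_of_symm {W : FN.{u} Ω q} (hq : 1 < q) (hmix : W.IsMixed) {m : ℕ} {P : Ω → Prop}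
    (hP : ∀ a, P a → ∀ j : ℤ, P (a * (q : Ω) ^ j))
    (hsymm : ∀ a (k : ℕ), P a → IsWeil q (m + k) a → W.mult a = W.mult (a / (q : Ω) ^ k))
    (hD : ∀ a (k : ℕ), P a → IsWeil q (m + k) a → W.mult a ≤ W.mult (a / (q : Ω) ^ (k + 1)))
    {a : Ω} (ha : P a) : W.mult a = 0 := by
  have hq0 : 0 < q := by omega
  have hqΩ : (q : Ω) ≠ 0 := by exact_mod_cast hq0.ne'
  have hpos : ∀ a (k : ℕ), P a → IsWeil q (m + k) a → W.mult a = 0 := by
    intro a k ha hw
    have hstep : ∀ j : ℕ, W.mult (a * (q : Ω) ^ j) ≤ W.mult (a * (q : Ω) ^ (j + 1)) := by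
      intro j
      have hPj : P (a * (q : Ω) ^ j) := by
        have := hP a ha j
        rwa [zpow_natCast] at this
      have hPj' : P (a * (q : Ω) ^ (j + 1)) := by
        have := hP a ha ((j + 1 : ℕ) : ℤ)
        rwa [zpow_natCast] at this
      have hwj : IsWeil q (m + (k + 2 * j : ℕ)) (a * (q : Ω) ^ j) := by
        have := hw.scale hq0 j
        rw [zpow_natCast] at this
        rwa [show (m : ℤ) + k + 2 * (j : ℤ) = m + (k + 2 * j : ℕ) by push_cast; ring] at this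
      have hwj' : IsWeil q (m + (k + 2 * j + 2 : ℕ)) (a * (q : Ω) ^ (j + 1)) := by
        have := hw.scale hq0 ((j + 1 : ℕ) : ℤ)
        rw [zpow_natCast] at this
        rwa [show (m : ℤ) + k + 2 * ((j + 1 : ℕ) : ℤ) = m + (k + 2 * j + 2 : ℕ) by
          push_cast; ring] at this
      refine (hD _ _ hPj hwj).trans (le_of_eq ?_)
      rw [hsymm _ _ hPj' hwj']
      congr 1
      rw [show k + 2 * j + 2 = (k + 2 * j + 1) + 1 by ring, pow_succ (q : Ω) (k + 2 * j + 1),
        pow_succ (q : Ω) j]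
      field_simp
    obtain ⟨j, hj⟩ := exists_mult_zero (W := W) hq (hw.ne_zero hq0)
    have hmono : ∀ j : ℕ, W.mult a ≤ W.mult (a * (q : Ω) ^ j) := by
      intro j
      induction j with
      | zero => simp
      | succ j ih => exact ih.trans (hstep j)
    exact Nat.le_zero.1 ((hmono j).trans (le_of_eq hj))
  by_cases hex : ∃ w, IsWeil q w a
  · obtain ⟨w, hw⟩ := hex
    rcases le_or_gt (m : ℤ) w with h | h
    · obtain ⟨k, hk⟩ := Int.eq_ofNat_of_zero_le (sub_nonneg.2 h)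
      have hw' : w = m + k := by omega
      subst hw'
      exact hpos a k ha hw
    · obtain ⟨k, hk⟩ := Int.eq_ofNat_of_zero_le (sub_nonneg.2 h.le)
      have hw' : w = m - k := by omega
      subst hw'
      have h1 := hw.scale hq0 k
      have h2 : ((m : ℤ) - k) + 2 * (k : ℤ) = m + k := by ring
      rw [h2] at h1
      have h3 := hP a ha k
      have h4 := hpos _ _ h3 h1
      rw [hsymm _ _ h3 h1, zpow_natCast, mul_div_assoc, div_self (pow_ne_zero _ hqΩ), mul_one] at h4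
      exact h4
  · push Not at hex
    exact mult_eq_zero hmix hex

/-- Symmetry of the multiplicities in the pure case. -/
theorem symm_of_isPure {W : FN.{u} Ω q} (hq : 0 < q) {m : ℕ} (hp : W.IsPure m) {k : ℕ} {b : Ω}
    (hb : IsWeil q (m + k) b) : W.mult b = W.mult (b / (q : Ω) ^ k) := by
  obtain ⟨h1, h2⟩ := hp.2 k b hb
  let f : W.F.maxGenEigenspace b →ₗ[Ω] W.F.maxGenEigenspace (b / (q : Ω) ^ k) :=
    (W.N ^ k).restrict fun v hv => N_pow_mem hq k hv
  have hbij : Function.Bijective f := by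
    constructor
    · rw [injective_iff_map_eq_zero]
      intro v hv
      exact Subtype.ext (h1 v v.2 (congrArg Subtype.val hv))
    · intro u
      obtain ⟨v, hv, he⟩ := h2 u u.2
      exact ⟨⟨v, hv⟩, Subtype.ext he⟩
  exact (LinearEquiv.ofBijective f hbij).finrank_eq

/-- **The vanishing lemma.** If the multiplicities for the eigenvalues in `P` are decreasing for all schemes,
and the monodromy-weight conjecture holds in smaller dimension, then they vanish. -/
theorem vanish (𝒞 : LogCohomology.{u} Ω q) (hq : 1 < q) {n : ℕ}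
    (hlow : ∀ n' < n, ∀ (Y : 𝒞.Var n') (m : ℕ), m ≤ 2 * n' → (𝒞.H Y m).IsPure m) {P : Ω → Prop}
    (hP : ∀ a, P a → ∀ j : ℤ, P (a * (q : Ω) ^ j))
    (hD : ∀ (n' : ℕ) (Y : 𝒞.Var n') (m : ℕ), m ≤ 2 * n' → ∀ a (k : ℕ), P a →
      IsWeil q (m + k) a → (𝒞.H Y m).mult a ≤ (𝒞.H Y m).mult (a / (q : Ω) ^ (k + 1)))
    (X : 𝒞.Var n) {m : ℕ} (hm : m ≤ 2 * n) {a : Ω} (ha : P a) : (𝒞.H X m).mult a = 0 := by
  have hq0 : 0 < q := by omega
  have hqΩ : (q : Ω) ≠ 0 := by exact_mod_cast hq0.ne'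
  have hY : ∀ n' < n, ∀ (Y : 𝒞.Var n') (m : ℕ), m ≤ 2 * n' → ∀ a, P a → (𝒞.H Y m).mult a = 0 := by
    intro n' hn' Y m hm a ha
    exact vanish_of_symm hq (𝒞.mixed Y m) hP
      (fun a k _ hw => symm_of_isPure hq0 (hlow n' hn' Y m hm) hw) (fun a k ha hw =>
        hD n' Y m hm a k ha hw) ha
  -- the dual eigenvalues in smaller dimension
  have hY' : ∀ n' < n, ∀ (Y : 𝒞.Var n') (m : ℕ), m ≤ 2 * n' → ∀ c, c ≠ 0 →
      (∃ j : ℤ, P ((q : Ω) ^ j / c)) → (𝒞.H Y m).mult c = 0 := by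
    rintro n' hn' Y m hm c hc ⟨j, hj⟩
    rw [𝒞.duality Y m hm c hc]
    refine hY n' hn' Y _ (by omega) _ ?_
    have h1 := hP _ hj (n' - j)
    have hz : (q : Ω) ^ j ≠ 0 := zpow_ne_zero _ hqΩ
    have h4 : (q : Ω) ^ j / c * (q : Ω) ^ ((n' : ℤ) - j) = (q : Ω) ^ n' / c := by
      rw [zpow_sub₀ hqΩ, zpow_natCast]
      field_simp
    rwa [h4] at h1
  -- small degrees
  have hsmall : ∀ m < n, ∀ a, P a → (𝒞.H X m).mult a = 0 := by
    intro m hm a ha
    obtain ⟨n, rfl⟩ : ∃ n', n = n' + 1 := ⟨n - 1, by omega⟩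
    obtain ⟨Y, hYm⟩ := 𝒞.hyperplane X
    have h1 := mult_le_of_embeds (hYm m (by omega)) a
    rw [hY n (by omega) Y m (by omega) a ha] at h1
    exact Nat.le_zero.1 h1
  have hsmall' : ∀ m < n, ∀ c, c ≠ 0 → (∃ j : ℤ, P ((q : Ω) ^ j / c)) → (𝒞.H X m).mult c = 0 := by
    intro m hm c hc hj
    obtain ⟨n, rfl⟩ : ∃ n', n = n' + 1 := ⟨n - 1, by omega⟩
    obtain ⟨Y, hYm⟩ := 𝒞.hyperplane X
    have h1 := mult_le_of_embeds (hYm m (by omega)) c
    rw [hY' n (by omega) Y m (by omega) c hc hj] at h1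
    exact Nat.le_zero.1 h1
  -- large degrees
  have hlarge : ∀ m, n < m → m ≤ 2 * n → ∀ a, P a → a ≠ 0 → (𝒞.H X m).mult a = 0 := by
    intro m h1 h2 a ha ha0
    rw [𝒞.duality X m h2 a ha0]
    refine hsmall' _ (by omega) _ (div_ne_zero (pow_ne_zero _ hqΩ) ha0) ⟨n, ?_⟩
    rw [zpow_natCast, div_div_cancel₀ (pow_ne_zero _ hqΩ)]
    exact ha
  have hlarge' : ∀ m, n < m → m ≤ 2 * n → ∀ c, c ≠ 0 → (∃ j : ℤ, P ((q : Ω) ^ j / c)) →
      (𝒞.H X m).mult c = 0 := by
    rintro m h1 h2 c hc ⟨j, hj⟩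
    rw [𝒞.duality X m h2 c hc]
    refine hsmall _ (by omega) _ ?_
    have h3 := hP _ hj (n - j)
    have hz : (q : Ω) ^ j ≠ 0 := zpow_ne_zero _ hqΩ
    have h4 : (q : Ω) ^ j / c * (q : Ω) ^ ((n : ℤ) - j) = (q : Ω) ^ n / c := by
      rw [zpow_sub₀ hqΩ, zpow_natCast]
      field_simp
    rwa [h4] at h3
  by_cases ha0 : a = 0
  · refine mult_eq_zero (𝒞.mixed X m) fun w hw => hw.ne_zero hq0 ha0
  rcases lt_trichotomy m n with h | h | h
  · exact hsmall m h a ha
  · subst h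
    refine vanish_of_symm hq (𝒞.mixed X m) hP (fun a k ha hw => ?_) (fun a k ha hw =>
      hD m X m hm a k ha hw) ha
    have ha0 := hw.ne_zero hq0
    have hc0 : (q : Ω) ^ ((m : ℤ) + k) / a ≠ 0 := (hw.conj hq0).ne_zero hq0
    have hcP : ∃ j : ℤ, P ((q : Ω) ^ j / ((q : Ω) ^ ((m : ℤ) + k) / a)) :=
      ⟨(m : ℤ) + k, by rwa [div_div_cancel₀ (zpow_ne_zero _ hqΩ)]⟩
    have h1 := 𝒞.euler X a ((q : Ω) ^ ((m : ℤ) + k) / a) hw.1 (hw.minpoly_conj hq0).symm
    unfold altMult at h1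
    rw [Finset.sum_eq_single m, Finset.sum_eq_single m] at h1
    · have h4 : ((-1 : ℤ)) ^ m ≠ 0 := pow_ne_zero _ (by norm_num)
      have h5 : (𝒞.H X m).mult a = (𝒞.H X m).mult ((q : Ω) ^ ((m : ℤ) + k) / a) := by
        exact_mod_cast mul_left_cancel₀ h4 h1
      rw [h5, 𝒞.duality X m (by omega) _ hc0, show 2 * m - m = m by omega]
      congr 1
      rw [← Nat.cast_add, zpow_natCast, pow_add]
      field_simp
    · intro m' hm' hne
      rw [Finset.mem_range] at hm'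
      rcases Nat.lt_or_gt_of_ne hne with h | h
      · rw [hsmall' m' h _ hc0 hcP, Nat.cast_zero, mul_zero]
      · rw [hlarge' m' h (by omega) _ hc0 hcP, Nat.cast_zero, mul_zero]
    · intro h
      exact absurd (Finset.mem_range.2 (by omega)) h
    · intro m' hm' hne
      rw [Finset.mem_range] at hm'
      rcases Nat.lt_or_gt_of_ne hne with h | h
      · rw [hsmall m' h a ha, Nat.cast_zero, mul_zero]
      · rw [hlarge m' h (by omega) a ha ha0, Nat.cast_zero, mul_zero]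
    · intro h
      exact absurd (Finset.mem_range.2 (by omega)) h
  · exact hlarge m h hm a ha ha0

/-! ### Tensor products of eigenvectors -/

theorem tmul_ne_zero {W W' : FN.{u} Ω q} {x : W.V} {y : W'.V} (hx0 : x ≠ 0) (hy0 : y ≠ 0) :
    x ⊗ₜ[Ω] y ≠ 0 := by
  intro h
  obtain ⟨φ, hφ⟩ : ∃ φ : Dual Ω W.V, φ x ≠ 0 := by
    by_contra hcon
    push Not at hcon
    exact hx0 ((Module.forall_dual_apply_eq_zero_iff Ω x).1 hcon)
  obtain ⟨ψ, hψ⟩ : ∃ ψ : Dual Ω W'.V, ψ y ≠ 0 := by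
    by_contra hcon
    push Not at hcon
    exact hy0 ((Module.forall_dual_apply_eq_zero_iff Ω y).1 hcon)
  have h1 := congrArg (LinearMap.mul' Ω Ω ∘ₗ TensorProduct.map φ ψ) h
  rw [LinearMap.comp_apply, TensorProduct.map_tmul, LinearMap.mul'_apply, map_zero] at h1
  exact mul_ne_zero hφ hψ h1

theorem N2_pow (W W' : FN.{u} Ω q) (t : ℕ) (u : W.V) (v : W'.V) : (N2 W W' ^ t) (u ⊗ₜ[Ω] v) =
    ∑ p ∈ Finset.HasAntidiagonal.antidiagonal t, (t.choose p.1) • (((W.N ^ p.1) u) ⊗ₜ[Ω] ((W'.N ^ p.2) v)) := by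
  set A : End Ω (W.V ⊗[Ω] W'.V) := TensorProduct.map W.N LinearMap.id with hA
  set B : End Ω (W.V ⊗[Ω] W'.V) := TensorProduct.map LinearMap.id W'.N with hB
  have hcomm : Commute A B := by
    refine TensorProduct.ext' fun u v => ?_
    rw [Module.End.mul_apply, Module.End.mul_apply, hA, hB, TensorProduct.map_tmul,
      TensorProduct.map_tmul, TensorProduct.map_tmul, TensorProduct.map_tmul]
    rfl
  have hApow : ∀ r u v, (A ^ r) (u ⊗ₜ[Ω] v) = ((W.N ^ r) u) ⊗ₜ[Ω] v := by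
    intro r u v
    induction r with
    | zero => simp
    | succ r ih => rw [pow_succ', Module.End.mul_apply, ih, hA, TensorProduct.map_tmul, pow_succ',
        Module.End.mul_apply, LinearMap.id_apply]
  have hBpow : ∀ r u v, (B ^ r) (u ⊗ₜ[Ω] v) = u ⊗ₜ[Ω] ((W'.N ^ r) v) := by
    intro r u v
    induction r with
    | zero => simp
    | succ r ih => rw [pow_succ', Module.End.mul_apply, ih, hB, TensorProduct.map_tmul, pow_succ',
        Module.End.mul_apply, LinearMap.id_apply]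
  have hN2 : N2 W W' = A + B := rfl
  rw [hN2, hcomm.add_pow', LinearMap.sum_apply]
  refine Finset.sum_congr rfl fun p _ => ?_
  rw [LinearMap.smul_apply, Module.End.mul_apply, hBpow, hApow]

theorem N2_pow_zero {W W' : FN.{u} Ω q} {x : W.V} {y : W'.V} {k l : ℕ} (hx : (W.N ^ k) x = 0)
    (hy : (W'.N ^ (l + 1)) y = 0) : (N2 W W' ^ (k + l)) (x ⊗ₜ[Ω] y) = 0 := by
  rw [N2_pow]
  refine Finset.sum_eq_zero fun p hp => ?_
  rw [Finset.HasAntidiagonal.mem_antidiagonal] at hp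
  rcases Nat.lt_or_ge p.1 k with h | h
  · obtain ⟨c, hc⟩ := Nat.exists_eq_add_of_le (show l + 1 ≤ p.2 by omega)
    rw [hc, add_comm (l + 1) c, pow_add, Module.End.mul_apply, hy, map_zero,
      TensorProduct.tmul_zero, smul_zero]
  · obtain ⟨c, hc⟩ := Nat.exists_eq_add_of_le h
    rw [hc, add_comm k c, pow_add, Module.End.mul_apply, hx, map_zero, TensorProduct.zero_tmul,
      smul_zero]

/-- **The monodromy-weight conjecture from its Tate part.** -/
theorem isPure_of_tatePart (𝒞 : LogCohomology.{u} Ω q) (hq : 1 < q)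
    (hT : ∀ (n : ℕ) (X : 𝒞.Var n) (m : ℕ) (n' : ℕ) (X' : 𝒞.Var n') (m' : ℕ), m ≤ 2 * n →
      m' ≤ 2 * n' →
      TatePart q (F2 (𝒞.H X m) (𝒞.H X' m')) (N2 (𝒞.H X m) (𝒞.H X' m')) (m + m')) :
    ∀ (n : ℕ) (X : 𝒞.Var n) (m : ℕ), m ≤ 2 * n → (𝒞.H X m).IsPure m := by
  have hq0 : 0 < q := by omega
  have hqΩ : (q : Ω) ≠ 0 := by exact_mod_cast hq0.ne'
  intro n
  induction n using Nat.strong_induction_on with
  | _ n ih =>
    intro X
    have hinj : ∀ m ≤ 2 * n, ∀ (k : ℕ) (a : Ω), IsWeil q (m + k) a →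
        ∀ v ∈ (𝒞.H X m).F.maxGenEigenspace a, ((𝒞.H X m).N ^ k) v = 0 → v = 0 := by
      intro m hm k a ha v hv hvk
      by_contra hv0
      have ha0 : a ≠ 0 := ha.ne_zero hq0
      have hk : 0 < k := by
        rcases Nat.eq_zero_or_pos k with rfl | h
        · exact absurd (by simpa using hvk) hv0
        · exact h
      obtain ⟨x, hx0, hFx, hxk⟩ := exists_eigenvector hv hv0 hvk
      have hvan := vanish 𝒞 hq (n := n) (P := fun a' => ∃ r : ℤ, a * a' = (q : Ω) ^ r)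
        (fun n' hn' Y m hm => ih n' hn' Y m hm)
        (by
          rintro a' ⟨r, hr⟩ j
          exact ⟨r + j, by rw [← mul_assoc, hr, zpow_add₀ hqΩ]⟩)
        (by
          rintro n' Y m' hm' a' k' ⟨r, hr⟩ hw
          refine mult_le hq0 fun y hy hyk => ?_
          by_contra hy0
          obtain ⟨y, hy0, hFy, hyk⟩ := exists_eigenvector hy hy0 hyk
          refine tmul_ne_zero hx0 hy0 (hT n X m n' Y m' hm hm' r (k + k') (by omega) ?_ _ ?_
            (N2_pow_zero hxk hyk))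
          · have h1 := weight_of_mul hq ha hw hr
            push_cast
            rw [← h1]
            ring
          · unfold F2
            rw [TensorProduct.map_tmul, hFx, hFy, TensorProduct.smul_tmul_smul, hr])
        X (m := 2 * n - m) (by omega) (a := (q : Ω) ^ n / a)
        ⟨n, by rw [mul_div_cancel₀ _ ha0, zpow_natCast]⟩
      rw [← 𝒞.duality X m hm a ha0] at hvan
      exact (mult_pos hv hv0).ne' hvan
    intro m hm
    refine ⟨𝒞.mixed X m, fun k a ha => ⟨hinj m hm k a ha, surj_of hq0 (hinj m hm k a ha) ?_⟩⟩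
    have ha0 := ha.ne_zero hq0
    refine le_antisymm (mult_le hq0 (hinj m hm k a ha)) ?_
    -- the dual inequality
    have h1 : IsWeil q (((2 * n - m : ℕ) : ℤ) + k) ((q : Ω) ^ (n + k) / a) := by
      have h2 := (ha.conj hq0).scale hq0 ((n : ℤ) - m)
      have h3 : (m : ℤ) + k + 2 * ((n : ℤ) - m) = ((2 * n - m : ℕ) : ℤ) + k := by
        rw [Nat.cast_sub hm]
        push_cast
        ring
      have h4 : (q : Ω) ^ ((m : ℤ) + k) / a * (q : Ω) ^ ((n : ℤ) - m) = (q : Ω) ^ (n + k) / a := by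
        rw [div_mul_eq_mul_div, ← zpow_add₀ hqΩ, show (m : ℤ) + k + ((n : ℤ) - m) = ((n + k : ℕ) : ℤ) by
          push_cast; ring, zpow_natCast]
      rwa [h3, h4] at h2
    have h5 := mult_le hq0 (hinj (2 * n - m) (by omega) k _ h1)
    rw [𝒞.duality X m hm a ha0, 𝒞.duality X m hm _ (div_ne_zero ha0 (pow_ne_zero _ hqΩ))]
    refine (le_of_eq ?_).trans (h5.trans (le_of_eq ?_))
    · congr 1
      rw [pow_add]
      field_simp
    · congr 1
      rw [pow_add]
      field_simp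

end Pool.Agent.X268.KC
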